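import Pool.Agent.helper29.PQ.Spec
import Pool.Agent.helper61.TG.WT6

/-!
# Row pq:C1 of MP_56fc12_nt: Parseval
-/

namespace Pool.Agent.helper29.PQ

open Finset Pool.Agent.helper35.LinPrimes Pool.Agent.helper74.TG

theorem C1 : C1_stmt := by
  classical
  intro U N₁ F R T hR hF hT
  rcases le_or_gt U N₁ with hUN | hUN
  · rw [Finset.Ioc_eq_empty_of_le hUN, Finset.sum_empty]
    positivity
  set P : ℕ := 2 * U + 1 with hP
  have hP0 : (0 : ℝ) < P := by
    rw [hP]
    positivity
  set b : ℕ → ℂ := fun z => ∑ x ∈ Ioc 0 U, ∑ a ∈ T, if x + a = z then F x else 0 with hb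
  -- the generating function of b
  have h1 : ∀ k ∈ range P, ‖∑ z ∈ range P, b z * ee (z * ((k : ℝ) / P))‖ ^ 2 ≤
      R ^ 2 * ‖∑ a ∈ T, (1 : ℂ) * ee (a * ((k : ℝ) / P))‖ ^ 2 := by
    intro k _
    have h2 : ∑ z ∈ range P, b z * ee (z * ((k : ℝ) / P)) =
        (∑ x ∈ Ioc 0 U, F x * ee (x * ((k : ℝ) / P))) *
          ∑ a ∈ T, (1 : ℂ) * ee (a * ((k : ℝ) / P)) := by
      have h3 : ∀ z ∈ range P, b z * ee (z * ((k : ℝ) / P)) =
          ∑ x ∈ Ioc 0 U, ∑ a ∈ T, if x + a = z then
            F x * ee (x * ((k : ℝ) / P)) * (1 * ee (a * ((k : ℝ) / P))) else 0 := by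
        intro z _
        rw [hb]
        simp only
        rw [Finset.sum_mul]
        refine Finset.sum_congr rfl fun x _ => ?_
        rw [Finset.sum_mul]
        refine Finset.sum_congr rfl fun a _ => ?_
        split_ifs with h
        · subst h
          rw [one_mul, mul_assoc, ← h61.ee_add]
          congr 2
          push_cast
          ring
        · rw [zero_mul]
      rw [Finset.sum_congr rfl h3, Finset.sum_comm, Finset.sum_mul_sum]
      refine Finset.sum_congr rfl fun x hx => ?_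
      rw [Finset.sum_comm]
      refine Finset.sum_congr rfl fun a ha => ?_
      rw [Finset.sum_ite_eq, if_pos]
      rw [Finset.mem_range]
      have h4 := (Finset.mem_Ioc.1 hx).2
      have h5 := hT a ha
      omega
    rw [h2, norm_mul, mul_pow]
    exact mul_le_mul_of_nonneg_right
      (pow_le_pow_left₀ (norm_nonneg _) (hF _) 2) (by positivity)
  have h6 := Finset.sum_le_sum h1
  rw [← Finset.mul_sum, h61.parseval P (range P) (fun x hx => Finset.mem_range.1 hx) b,
    h61.parseval P T (fun x hx => by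
      have h7 := hT x hx
      omega) (fun _ => 1)] at h6
  have h8 : ∑ a ∈ T, ‖(1 : ℂ)‖ ^ 2 = (#T : ℝ) := by simp
  rw [h8] at h6
  have h9 : ∑ z ∈ range P, ‖b z‖ ^ 2 ≤ R ^ 2 * #T := by
    have h10 : (P : ℝ) * ∑ z ∈ range P, ‖b z‖ ^ 2 ≤ P * (R ^ 2 * #T) := by
      calc (P : ℝ) * ∑ z ∈ range P, ‖b z‖ ^ 2 ≤ R ^ 2 * (P * #T) := h6
        _ = P * (R ^ 2 * #T) := by ring
    exact le_of_mul_le_mul_left h10 hP0
  refine le_trans ?_ h9
  have h11 : ∀ N ∈ Ioc N₁ U, ‖∑ a ∈ T, F (N - a)‖ ^ 2 = ‖b N‖ ^ 2 := by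
    intro N hN
    have h12 := Finset.mem_Ioc.1 hN
    congr 2
    rw [hb]
    simp only
    rw [Finset.sum_comm]
    refine Finset.sum_congr rfl fun a ha => ?_
    have h13 := hT a ha
    have h14 : ∀ x ∈ Ioc 0 U, (if x + a = N then F x else 0) =
        if N - a = x then F x else 0 := by
      intro x _
      by_cases h : x + a = N
      · rw [if_pos h, if_pos (by omega)]
      · rw [if_neg h, if_neg (by omega)]
    rw [Finset.sum_congr rfl h14, Finset.sum_ite_eq, if_pos]
    rw [Finset.mem_Ioc]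
    omega
  rw [Finset.sum_congr rfl h11]
  refine Finset.sum_le_sum_of_subset_of_nonneg ?_ fun _ _ _ => by positivity
  intro N hN
  have h15 := Finset.mem_Ioc.1 hN
  rw [Finset.mem_range]
  omega

end Pool.Agent.helper29.PQ
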